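import Pool.Agent.P8H40.CY.Fin2

/-!
# Project HT: polynomials with coefficients which are polynomials in constants
-/

set_option autoImplicit false

open Module

namespace Pool.Agent.P8H30.HT

/-- `w` is a polynomial of degree at most `δ` in the numbers `z i` -/
def PolyIn {r : ℕ} (δ : ℕ) (z : Fin r → ℂ) (K : IntermediateField ℚ ℂ) (w : ℂ) : Prop :=
  ∃ p : MvPolynomial (Fin r) K, (∀ x, p.degreeOf x ≤ δ) ∧ w = MvPolynomial.aeval z p

variable {r : ℕ} {z : Fin r → ℂ} {K : IntermediateField ℚ ℂ}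

lemma PolyIn.of_mem {δ : ℕ} {a : ℂ} (ha : a ∈ K) : PolyIn δ z K a :=
  ⟨MvPolynomial.C ⟨a, ha⟩, fun x => by rw [MvPolynomial.degreeOf_C]; exact Nat.zero_le _, by
    rw [MvPolynomial.aeval_C]; rfl⟩

lemma PolyIn.add {δ : ℕ} {a b : ℂ} (ha : PolyIn δ z K a) (hb : PolyIn δ z K b) : PolyIn δ z K (a + b) := by
  obtain ⟨p, hp, rfl⟩ := ha
  obtain ⟨q, hq, rfl⟩ := hb
  exact ⟨p + q, fun x => (MvPolynomial.degreeOf_add_le _ _ _).trans (max_le (hp x) (hq x)), by rw [map_add]⟩

lemma PolyIn.mul {δ δ' : ℕ} {a b : ℂ} (ha : PolyIn δ z K a) (hb : PolyIn δ' z K b) : PolyIn (δ + δ') z K (a * b) := by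
  obtain ⟨p, hp, rfl⟩ := ha
  obtain ⟨q, hq, rfl⟩ := hb
  exact ⟨p * q, fun x => (MvPolynomial.degreeOf_mul_le _ _ _).trans (add_le_add (hp x) (hq x)), by rw [map_mul]⟩

/-- the space of these numbers -/
def Wz (δ : ℕ) (z : Fin r → ℂ) (K : IntermediateField ℚ ℂ) : Submodule ℚ ℂ where
  carrier := {w | PolyIn δ z K w}
  add_mem' := fun ha hb => PolyIn.add ha hb
  zero_mem' := PolyIn.of_mem K.zero_mem
  smul_mem' := fun c x hx => by
    have h := (PolyIn.of_mem (δ := 0) (z := z) (K := K) (a := (c : ℂ)) (by exact_mod_cast K.algebraMap_mem c)).mul hx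
    rw [zero_add] at h
    show PolyIn δ z K (c • x)
    rw [Algebra.smul_def]
    exact h

lemma mem_Wz {δ : ℕ} {w : ℂ} : w ∈ Wz δ z K ↔ PolyIn δ z K w := Iff.rfl

lemma Wz_pow (δ k : ℕ) : Wz δ z K ^ k ≤ Wz (k * δ) z K := by
  induction k with
  | zero =>
    rw [pow_zero, zero_mul, Submodule.one_le]
    exact PolyIn.of_mem K.one_mem
  | succ k ih =>
    rw [pow_succ, Submodule.mul_le]
    intro a ha b hb
    have h := (mem_Wz.1 (ih ha)).mul (mem_Wz.1 hb)
    rw [mem_Wz]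
    rwa [← Nat.succ_mul] at h

/-- lifting of a polynomial -/
theorem lift {τ υ : Type} [Fintype τ] {δ d : ℕ} (φ : τ → υ) (P : MvPolynomial τ ℂ)
    (hP : ∀ s, PolyIn δ z K (P.coeff s)) (hd : P.totalDegree ≤ d) :
    ∃ F : MvPolynomial (Fin r ⊕ υ) K, (∀ x, F.degreeOf x ≤ δ + d) ∧
      ∀ w : υ → ℂ, MvPolynomial.aeval (Sum.elim z w) F = MvPolynomial.eval (fun s => w (φ s)) P := by
  classical
  choose p hp hpe using hP
  refine ⟨∑ s ∈ P.support, MvPolynomial.rename Sum.inl (p s) * ∏ i, MvPolynomial.X (Sum.inr (φ i)) ^ s i, fun x => ?_,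
    fun w => ?_⟩
  · refine (MvPolynomial.degreeOf_sum_le _ _ _).trans (Finset.sup_le fun s hs => ?_)
    refine (MvPolynomial.degreeOf_mul_le _ _ _).trans (add_le_add ?_ ?_)
    · exact Pool.Agent.P8H40.CY.degreeOf_rename_le Sum.inl_injective (hp s) x
    · refine (MvPolynomial.degreeOf_le_totalDegree _ _).trans ?_
      refine (MvPolynomial.totalDegree_finsetProd _ _).trans ?_
      have h6 := (MvPolynomial.le_totalDegree hs).trans hd
      rw [Finsupp.sum_fintype _ _ (fun _ => rfl)] at h6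
      refine le_trans (Finset.sum_le_sum fun i _ => ?_) h6
      refine (MvPolynomial.totalDegree_pow _ _).trans ?_
      rw [MvPolynomial.totalDegree_X, mul_one]
  · rw [map_sum, MvPolynomial.eval_eq']
    refine Finset.sum_congr rfl fun s _ => ?_
    rw [map_mul, MvPolynomial.aeval_rename, map_prod, hpe s]
    congr 1
    refine Finset.prod_congr rfl fun i _ => ?_
    rw [map_pow, MvPolynomial.aeval_X]
    rfl

end Pool.Agent.P8H30.HT
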