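import Pool.Agent.P8H30.HT.Tors
import Pool.Agent.P8H40.CY.Fin4
import Pool.Agent.P8H93.CY.Eli
import Pool.Agent.P8H5.CY.Gre

/-!
# Project HT: the smallest subtorsor for the hypergeometric motives
-/

set_option autoImplicit false

open Module

namespace Pool.Agent.P8H30.HT

open Pool.Agent.Y123.SR Pool.Agent.Y118.HP Pool.Agent.Y123.ST Pool.Agent.TH127.PT
open Pool.Agent.P8H40.HA (Ya)

/-- the conclusion, in the notation of the library -/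
def Concl {m k : ℕ} (α : Fin m → ℚ) (c : ℕ) (t : Fin k → ℕ) (J : ℕ → Matrix (Fin (2 * m)) (Fin (2 * m)) ℚ)
    (Jl : Matrix (Fin (2 * m)) (Fin (2 * m)) ℚ) {r : ℕ} (δ : ℕ) (z : Fin r → ℂ) (K : IntermediateField ℚ ℂ) : Prop :=
  ∀ (B₀ : Type) [Fintype B₀] [DecidableEq B₀] (b₀ : B₀) (c₀ : Matrix B₀ B₀ ℂ)
    (R : Fin k → (Matrix (Fin (2 * m)) (Fin (2 * m)) K)ˣ)
    (Ω : Fin k → Matrix (Fin (2 * m)) (Fin (2 * m)) ℂ), IsUnit c₀ → Cm b₀ c₀ → c₀ b₀ b₀ ≠ 0 → (∀ i j, PolyIn δ z K (c₀ i j)) →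
    (∀ i j, PolyIn δ z K ((c₀ b₀ b₀ • c₀⁻¹) i j)) → (∀ l i j, PolyIn δ z K (Ω l i j)) → (∀ l, IsUnit (Ω l)) →
    (∀ l, (Ω l).transpose * Jl.map (algebraMap ℚ ℂ) * Ω l = c₀ b₀ b₀ • jm ℂ (2 * m)) →
    ∀ Ω₀, Om K.toSubfield c₀ Ω₀ →
      Om K.toSubfield (E2 c₀ fun l => (cR (R l : Matrix (Fin (2 * m)) (Fin (2 * m)) K) * Ya α c (t l) * Ω l).transpose)
        (FP (fun l => cR (polDR (R l) (J (t l)))) b₀ Ω₀)

theorem main {m : ℕ} (hm : 1 ≤ m) (α : Fin m → ℚ) (hα : ∀ j, ∀ a : ℤ, α j ≠ a) (c : ℕ) (hc : 1 ≤ c) :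
    ∃ (G t₀ : ℕ) (J : ℕ → Matrix (Fin (2 * m)) (Fin (2 * m)) ℚ) (Jl : Matrix (Fin (2 * m)) (Fin (2 * m)) ℚ),
      1 ≤ G ∧ c < t₀ ∧ Jl.transpose = -Jl ∧ Jl.det ≠ 0 ∧
      (∀ t : ℕ, t₀ ≤ t → (J t).transpose = -J t ∧ (J t).det ≠ 0 ∧
        (Ya α c t).transpose * (J t).map (algebraMap ℚ ℂ) * Ya α c t = Jl.map (algebraMap ℚ ℂ)) ∧
      ∀ k r δ D : ℕ, ∃ (κ : ℝ) (M₀ : ℕ), 0 < κ ∧ t₀ ≤ M₀ ∧ ∀ M : ℕ, M₀ ≤ M → ∀ z : Fin r → ℂ,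
        ∀ T : Finset ℕ, (∀ t ∈ T, M ≤ t ∧ (t : ℝ) ≤ M + (M : ℝ) ^ κ) → (∀ t ∈ T, ∀ t' ∈ T, t ≠ t' → (G : ℤ) ≤ |(t : ℤ) - t'|) →
        ∃ S : Finset ℕ, S ⊆ T ∧ S.card ≤ r + 1 ∧ ∀ t : Fin k → ℕ, Function.Injective t → (∀ l, t l ∈ T \ S) →
          ∀ (K : IntermediateField ℚ ℂ) [FiniteDimensional ℚ K], finrank ℚ K ≤ D → Concl α c t J Jl δ z K := by
  obtain ⟨G, t₀, J, Jl, hG1, htc, hJl1, hJl2, hJ, -, hmain⟩ := Pool.Agent.P8H40.CY.final_T Pool.Agent.P8H93.CY.eli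
    (Pool.Agent.P8H5.CY.gre Pool.Agent.P8H40.CY.clt) hm α hα c hc
  obtain ⟨d, hd⟩ := tors (2 * m) (even_two_mul m) (by omega)
  refine ⟨G, t₀, J, Jl, hG1, htc, hJl1, hJl2, fun t ht => ?_, fun k r δ D => ?_⟩
  · obtain ⟨h1, h2, h3, -⟩ := hJ t ht
    exact ⟨h1, h2, h3⟩
  · obtain ⟨κ, M₀, hκ, hM₀, h⟩ := hmain k r (4 * δ + d) D
    refine ⟨κ, M₀, hκ, hM₀, fun M hM z T hT hTs => ?_⟩
    obtain ⟨S, hST, hS, hSt⟩ := h M hM z T hT hTs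
    refine ⟨S, hST, hS, fun t htinj htS K _ hK => ?_⟩
    intro B₀ _ _ b₀ c₀ R Ω hc0 hcm hlam h1 h2 hΩp hΩu hΩ Ω₀ hΩ₀
    have ht : ∀ l, t₀ ≤ t l := fun l => hM₀.trans (hM.trans (hT (t l) (Finset.mem_sdiff.1 (htS l)).1).1)
    have hY : ∀ l, (Ya α c (t l)).transpose * (J (t l)).map (algebraMap ℚ ℂ) * Ya α c (t l) = Jl.map (algebraMap ℚ ℂ) :=
      fun l => (hJ (t l) (ht l)).2.2.1
    have hδ : ∀ l i j, ∃ p : MvPolynomial (Fin r) K, (∀ x, p.degreeOf x ≤ 4 * δ + d) ∧ Ω l i j = MvPolynomial.aeval z p := by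
      intro l i j
      obtain ⟨p, hp, hpe⟩ := hΩp l i j
      exact ⟨p, fun x => (hp x).trans (by omega), hpe⟩
    have hrel := hSt t htinj htS K hK (fun l => (R l : Matrix (Fin (2 * m)) (Fin (2 * m)) K)) Ω hδ
    refine hd k r δ K z B₀ b₀ c₀ (fun l => J (t l)) Jl (fun l => Ya α c (t l)) R Ω hc0 hcm hlam h1 h2 hΩu hΩ hY
      (fun F hF h0 X hX => ?_) Ω₀ hΩ₀
    set φ : Fin r ⊕ (Fin k × Fin (2 * m) × Fin (2 * m)) → Fin r ⊕ Fin k × Option (Fin (2 * m) × Fin (2 * m)) :=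
      Sum.map id fun s => (s.1, some s.2) with hφ
    have hφi : Function.Injective φ := by
      refine Function.Injective.sumMap Function.injective_id ?_
      rintro ⟨a, s⟩ ⟨a', s'⟩ h
      have h3 : a = a' := congrArg Prod.fst h
      have h4 : s = s' := Option.some_injective _ (congrArg Prod.snd h)
      rw [h3, h4]
    have hev : ∀ (L : Fin k → ℂ) (X : Fin k → Matrix (Fin (2 * m)) (Fin (2 * m)) ℂ),
        MvPolynomial.aeval (Pool.Agent.P8H40.CY.ptk z L X) (MvPolynomial.rename φ F) =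
          MvPolynomial.aeval (Sum.elim z fun s : Fin k × Fin (2 * m) × Fin (2 * m) => X s.1 s.2.1 s.2.2) F := by
      intro L X
      rw [MvPolynomial.aeval_rename]
      congr 2
      funext x
      rcases x with i | s
      · rfl
      · rfl
    have h3 := hrel (MvPolynomial.rename φ F) (Pool.Agent.P8H40.CY.degreeOf_rename_le hφi hF) (by
      rw [hev]
      exact h0) 0 X hX
    rw [hev] at h3
    exact h3

end Pool.Agent.P8H30.HT
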