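import Pool.Agent.P8H30.HT.Lift
import Pool.Agent.Y123.SR.R7

/-!
# Project HT: relations of bounded degree which hold on the torsor determine the smallest subtorsor
-/

set_option autoImplicit false

open Module

namespace Pool.Agent.P8H30.HT

open Pool.Agent.Y123.SR Pool.Agent.Y118.HP Pool.Agent.Y123.ST Pool.Agent.TH127.PT

/-- the matrix `R` with complex entries -/
noncomputable def cR {n : ℕ} {K : IntermediateField ℚ ℂ} (R : Matrix (Fin n) (Fin n) K) : Matrix (Fin n) (Fin n) ℂ :=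
  R.map (algebraMap K ℂ)

/-- the polarisation in terms of the algebraic forms -/
noncomputable def polDR {n : ℕ} {K : IntermediateField ℚ ℂ} (R : (Matrix (Fin n) (Fin n) K)ˣ) (J : Matrix (Fin n) (Fin n) ℚ) :
    Matrix (Fin n) (Fin n) K :=
  ((R⁻¹ : (Matrix (Fin n) (Fin n) K)ˣ) : Matrix (Fin n) (Fin n) K).transpose * J.map (algebraMap ℚ K) *
    ((R⁻¹ : (Matrix (Fin n) (Fin n) K)ˣ) : Matrix (Fin n) (Fin n) K)

lemma cR_polDR {n : ℕ} {K : IntermediateField ℚ ℂ} (R : (Matrix (Fin n) (Fin n) K)ˣ) (J : Matrix (Fin n) (Fin n) ℚ) :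
    cR (polDR R J) = (cR ((R⁻¹ : (Matrix (Fin n) (Fin n) K)ˣ) : Matrix (Fin n) (Fin n) K)).transpose * J.map (algebraMap ℚ ℂ) *
      cR ((R⁻¹ : (Matrix (Fin n) (Fin n) K)ˣ) : Matrix (Fin n) (Fin n) K) := by
  unfold cR polDR
  rw [Matrix.map_mul, Matrix.map_mul, Matrix.transpose_map, Matrix.map_map]
  rfl

lemma cR_inv {n : ℕ} {K : IntermediateField ℚ ℂ} (R : (Matrix (Fin n) (Fin n) K)ˣ) :
    cR ((R⁻¹ : (Matrix (Fin n) (Fin n) K)ˣ) : Matrix (Fin n) (Fin n) K) * cR (R : Matrix (Fin n) (Fin n) K) = 1 ∧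
      cR (R : Matrix (Fin n) (Fin n) K) * cR ((R⁻¹ : (Matrix (Fin n) (Fin n) K)ˣ) : Matrix (Fin n) (Fin n) K) = 1 := by
  unfold cR
  rw [← Matrix.map_mul, ← Matrix.map_mul, Units.inv_mul, Units.mul_inv, Matrix.map_one _ (map_zero _) (map_one _)]
  exact ⟨rfl, rfl⟩

theorem tors (n : ℕ) (hn : Even n) (hn0 : 0 < n) : ∃ d : ℕ, ∀ (N r δ : ℕ) (K : IntermediateField ℚ ℂ) [FiniteDimensional ℚ K]
    (z : Fin r → ℂ) (B₀ : Type) [Fintype B₀] [DecidableEq B₀] (b₀ : B₀) (c₀ : Matrix B₀ B₀ ℂ)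
    (J : Fin N → Matrix (Fin n) (Fin n) ℚ) (Jl : Matrix (Fin n) (Fin n) ℚ) (Yv : Fin N → Matrix (Fin n) (Fin n) ℂ)
    (R : Fin N → (Matrix (Fin n) (Fin n) K)ˣ) (Ω : Fin N → Matrix (Fin n) (Fin n) ℂ),
    IsUnit c₀ → Cm b₀ c₀ → c₀ b₀ b₀ ≠ 0 → (∀ i j, PolyIn δ z K (c₀ i j)) → (∀ i j, PolyIn δ z K ((c₀ b₀ b₀ • c₀⁻¹) i j)) →
    (∀ l, IsUnit (Ω l)) → (∀ l, (Ω l).transpose * Jl.map (algebraMap ℚ ℂ) * Ω l = c₀ b₀ b₀ • jm ℂ n) →
    (∀ l, (Yv l).transpose * (J l).map (algebraMap ℚ ℂ) * Yv l = Jl.map (algebraMap ℚ ℂ)) →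
    (∀ F : MvPolynomial (Fin r ⊕ (Fin N × Fin n × Fin n)) K, (∀ x, F.degreeOf x ≤ 4 * δ + d) →
      MvPolynomial.aeval (Sum.elim z fun s : Fin N × Fin n × Fin n =>
        (cR (R s.1 : Matrix (Fin n) (Fin n) K) * Yv s.1 * Ω s.1) s.2.1 s.2.2) F = 0 →
      ∀ X : Fin N → Matrix (Fin n) (Fin n) ℂ,
        (∀ l, (X l).transpose * (J l).map (algebraMap ℚ ℂ) * X l = Jl.map (algebraMap ℚ ℂ)) →
        MvPolynomial.aeval (Sum.elim z fun s : Fin N × Fin n × Fin n =>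
          (cR (R s.1 : Matrix (Fin n) (Fin n) K) * X s.1 * Ω s.1) s.2.1 s.2.2) F = 0) →
    ∀ Ω₀, Om K.toSubfield c₀ Ω₀ →
      Om K.toSubfield (E2 c₀ fun l => (cR (R l : Matrix (Fin n) (Fin n) K) * Yv l * Ω l).transpose)
        (FP (fun l => cR (polDR (R l) (J l))) b₀ Ω₀) := by
  classical
  obtain ⟨d, hd⟩ := rel_om n hn hn0
  refine ⟨d, ?_⟩
  intro N r δ K _ z B₀ _ _ b₀ c₀ J Jl Yv R Ω hc0 hcm hlam h1 h2 hΩu hΩ hY hrel Ω₀ hΩ₀
  have hΩi : ∀ l, ∃ Ωi, Ω l * Ωi = 1 ∧ Ωi * Ω l = 1 := by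
    intro l
    obtain ⟨u, hu⟩ := hΩu l
    exact ⟨(u⁻¹ : (Matrix (Fin n) (Fin n) ℂ)ˣ), by rw [← hu]; exact u.mul_inv, by rw [← hu]; exact u.inv_mul⟩
  choose Ωi hΩi1 hΩi2 using hΩi
  refine hd B₀ b₀ N K.toSubfield (Wz δ z K) _ _ c₀ Ω₀ ?_ ?_ h1 h2 ?_ hc0 hcm ?_ ?_ hΩ₀
  · intro x hx
    have h3 : IsAlgebraic ℚ (⟨x, hx⟩ : K) := Algebra.IsAlgebraic.isAlgebraic _
    exact h3.algHom (IntermediateField.val K)
  · intro a ha
    exact PolyIn.of_mem ha
  · intro l a b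
    exact (polDR (R l) (J l) a b).2
  · refine ⟨hlam, fun l => ?_⟩
    show (cR (R l : Matrix (Fin n) (Fin n) K) * Yv l * Ω l).transpose * cR (polDR (R l) (J l)) *
      ((cR (R l : Matrix (Fin n) (Fin n) K) * Yv l * Ω l).transpose).transpose = c₀ b₀ b₀ • jm ℂ n
    rw [cR_polDR, Matrix.transpose_transpose]
    obtain ⟨h3, h4⟩ := cR_inv (R l)
    generalize cR ((R l)⁻¹ : (Matrix (Fin n) (Fin n) K)ˣ).1 = Ri at *
    generalize cR (R l : Matrix (Fin n) (Fin n) K) = Rc at *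
    calc (Rc * Yv l * Ω l).transpose * (Ri.transpose * (J l).map (algebraMap ℚ ℂ) * Ri) * (Rc * Yv l * Ω l)
        = (Ω l).transpose * ((Yv l).transpose * (((Ri * Rc).transpose * (J l).map (algebraMap ℚ ℂ)) * (Ri * Rc)) * Yv l) *
            Ω l := by
          simp only [Matrix.transpose_mul, Matrix.mul_assoc]
      _ = (Ω l).transpose * ((Yv l).transpose * (J l).map (algebraMap ℚ ℂ) * Yv l) * Ω l := by
          rw [h3, Matrix.transpose_one, Matrix.one_mul, Matrix.mul_one]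
      _ = _ := by rw [hY l, hΩ]
  · intro P hP hPW h0 X hX
    obtain ⟨F, hF, hFe⟩ := lift (z := z) (K := K) (υ := Fin N × Fin n × Fin n) (fun s => (s.1, s.2.2, s.2.1)) P
      (fun s => mem_Wz.1 (Wz_pow δ 4 (hPW s))) hP
    have hX1 := hX.2
    set X' : Fin N → Matrix (Fin n) (Fin n) ℂ := fun l =>
      cR ((R l)⁻¹ : (Matrix (Fin n) (Fin n) K)ˣ).1 * (X l).transpose * Ωi l with hX'
    have hback : ∀ l, cR (R l : Matrix (Fin n) (Fin n) K) * X' l * Ω l = (X l).transpose := by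
      intro l
      obtain ⟨h3, h4⟩ := cR_inv (R l)
      rw [hX']
      simp only
      generalize cR ((R l)⁻¹ : (Matrix (Fin n) (Fin n) K)ˣ).1 = Ri at *
      generalize cR (R l : Matrix (Fin n) (Fin n) K) = Rc at *
      calc Rc * (Ri * (X l).transpose * Ωi l) * Ω l = (Rc * Ri) * (X l).transpose * (Ωi l * Ω l) := by
            simp only [Matrix.mul_assoc]
        _ = _ := by rw [h4, hΩi2, Matrix.one_mul, Matrix.mul_one]
    have hX'J : ∀ l, (X' l).transpose * (J l).map (algebraMap ℚ ℂ) * X' l = Jl.map (algebraMap ℚ ℂ) := by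
      intro l
      have h5 := hX1 l
      simp only at h5
      rw [cR_polDR] at h5
      rw [hX']
      simp only
      generalize cR ((R l)⁻¹ : (Matrix (Fin n) (Fin n) K)ˣ).1 = Ri at *
      calc (Ri * (X l).transpose * Ωi l).transpose * (J l).map (algebraMap ℚ ℂ) * (Ri * (X l).transpose * Ωi l)
          = (Ωi l).transpose * (X l * (Ri.transpose * (J l).map (algebraMap ℚ ℂ) * Ri) * (X l).transpose) * Ωi l := by
            simp only [Matrix.transpose_mul, Matrix.transpose_transpose, Matrix.mul_assoc]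
        _ = (Ωi l).transpose * ((Ω l).transpose * Jl.map (algebraMap ℚ ℂ) * Ω l) * Ωi l := by rw [h5, hΩ]
        _ = (Ω l * Ωi l).transpose * Jl.map (algebraMap ℚ ℂ) * (Ω l * Ωi l) := by
            simp only [Matrix.transpose_mul, Matrix.mul_assoc]
        _ = _ := by rw [hΩi1, Matrix.transpose_one, Matrix.one_mul, Matrix.mul_one]
    have h6 := hrel F hF (by
      rw [hFe]
      exact h0) X' hX'J
    rw [hFe] at h6
    have h7 : (fun s : Fin N × Fin n × Fin n =>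
        (fun s : Fin N × Fin n × Fin n => (cR (R s.1 : Matrix (Fin n) (Fin n) K) * X' s.1 * Ω s.1) s.2.1 s.2.2) (s.1, s.2.2, s.2.1)) =
        cd X := by
      funext s
      simp only
      rw [hback]
      rfl
    rw [h7] at h6
    exact h6

end Pool.Agent.P8H30.HT
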